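import Pool.Agent.LCL89.Sim.Proof
import Pool.Agent.LCL89.Forced.Stmt

set_option autoImplicit false

/-!
# Reduction of the problem on `Γ`-spaces to the problem on `Y` with input
-/

namespace Pool.Agent.LCL89

theorem reduction_of_sim (hS : StmtSim) (hAct : StmtYAct) (hHom : StmtYHomeo)
    (hCount : StmtGCountable) : StmtReduction := by
  intro V α hα ι hι
  haveI : Countable (GP V) := hCount V
  obtain ⟨Idx, _, D, _, _, _, _, ⟨h⟩⟩ := hHom V
  exact hS (GP V) (eG V) (YY V) Idx D h (hAct V).2 (hAct V).1 α hα ι hι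

theorem reduction (hML : ML.StmtML) (hCL : StmtCL) (hPre : StmtPreimage)
    (hBor : StmtSigmaBorel) (hWin : StmtWindow) (hAct : StmtYAct) (hHom : StmtYHomeo)
    (hCount : StmtGCountable) : StmtReduction :=
  reduction_of_sim (sim hML hCL hPre hBor hWin) hAct hHom hCount

end Pool.Agent.LCL89
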