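import Pool.Agent.LCL89.Lcl.Stmt
import Pool.Agent.LCL89.Hier.Stmt
import Pool.Agent.LCL89.Grp.Defs
import Pool.Agent.LCL89.ML.Defs
import Pool.Agent.LCL89.CL.Proof

set_option autoImplicit false

/-!
# Simulation of inputs: from the game lemma to labelings of `Y` with a prescribed input
-/

namespace Pool.Agent.LCL89

open Monoid Topology Set

/-! ### the free part is Polish and zero-dimensional -/

section FreePart

variable {Γ X : Type} [Group Γ] [MulAction Γ X]

/-- the free part -/
def FP (Γ X : Type) [Group Γ] [MulAction Γ X] : Set X := {x | ∀ γ : Γ, γ • x = x → γ = 1}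

theorem smul_mem_FP {x : X} (h : x ∈ FP Γ X) (δ : Γ) : δ • x ∈ FP Γ X := by
  intro γ hγ
  have h1 : (δ⁻¹ * γ * δ) • x = x := by
    rw [mul_smul, mul_smul, hγ, inv_smul_smul]
  have h2 := h _ h1
  have : γ = δ * (δ⁻¹ * γ * δ) * δ⁻¹ := by group
  rw [this, h2]; group

theorem not_mem_FP {x : X} : x ∉ FP Γ X ↔ ∃ γ : Γ, γ ≠ 1 ∧ γ • x = x := by
  simp only [FP, Set.mem_setOf_eq]
  push Not
  exact ⟨fun ⟨γ, h1, h2⟩ => ⟨γ, h2, h1⟩, fun ⟨γ, h1, h2⟩ => ⟨γ, h2, h1⟩⟩

theorem polish_FP [Countable Γ] [TopologicalSpace X] [PolishSpace X]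
    (hc : ∀ γ : Γ, Continuous fun x : X => γ • x) : PolishSpace (FP Γ X) := by
  classical
  let I := {γ : Γ // γ ≠ 1}
  let Uγ : I → Set X := fun γ => {x | (γ : Γ) • x ≠ x}
  have hU : ∀ γ, IsOpen (Uγ γ) := fun γ => isOpen_ne_fun (hc _) continuous_id
  haveI : ∀ γ, PolishSpace (Uγ γ) := fun γ => (hU γ).polishSpace
  let j : FP Γ X → X × (∀ γ : I, Uγ γ) := fun x =>
    (x.1, fun γ => ⟨x.1, fun h => γ.2 (x.2 _ h)⟩)
  have hj : Continuous j :=
    continuous_subtype_val.prodMk (continuous_pi fun γ => continuous_subtype_val.subtype_mk _)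
  have hj2 : IsClosedEmbedding j := by
    refine ⟨⟨⟨?_⟩, ?_⟩, ?_⟩
    · refine le_antisymm hj.le_induced ?_
      have h1 : (instTopologicalSpaceSubtype : TopologicalSpace (FP Γ X)) =
          TopologicalSpace.induced (fun x : FP Γ X => (x : X)) inferInstance := rfl
      rw [h1]
      intro s hs
      rw [isOpen_induced_iff] at hs ⊢
      obtain ⟨t, ht, rfl⟩ := hs
      exact ⟨Prod.fst ⁻¹' t, ht.preimage continuous_fst, rfl⟩
    · intro x y h
      exact Subtype.ext (congrArg Prod.fst h)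
    · have : range j = {q | ∀ γ : I, ((q.2 γ : Uγ γ) : X) = q.1} := by
        ext q
        constructor
        · rintro ⟨x, rfl⟩ γ
          rfl
        · intro h
          refine ⟨⟨q.1, fun γ hγ => ?_⟩, ?_⟩
          · by_contra hne
            have := (q.2 ⟨γ, hne⟩).2
            rw [h ⟨γ, hne⟩] at this
            exact this hγ
          · refine Prod.ext rfl (funext fun γ => Subtype.ext (h γ).symm)
      rw [this]
      have : {q : X × (∀ γ : I, Uγ γ) | ∀ γ : I, ((q.2 γ : Uγ γ) : X) = q.1} =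
          ⋂ γ : I, {q | ((q.2 γ : Uγ γ) : X) = q.1} := by
        ext q; simp
      rw [this]
      exact isClosed_iInter fun γ => isClosed_eq
        (continuous_subtype_val.comp ((continuous_apply γ).comp continuous_snd)) continuous_fst
  exact hj2.polishSpace

theorem zeroDim_subtype [TopologicalSpace X] (h : ZeroDim X) (F : Set X) : ZeroDim F := by
  refine TopologicalSpace.isTopologicalBasis_of_isOpen_of_nhds (fun s hs => hs.isOpen) ?_
  intro x u hx hu
  obtain ⟨t, ht, rfl⟩ := isOpen_induced_iff.1 hu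
  obtain ⟨s, hs, hxs, hst⟩ := h.exists_subset_of_mem_open hx ht
  exact ⟨Subtype.val ⁻¹' s, hs.preimage continuous_subtype_val, hxs, fun y hy => hst hy⟩

/-- the action on the free part -/
def actFP (Γ X : Type) [Group Γ] [MulAction Γ X] : MulAction Γ (FP Γ X) where
  smul γ x := ⟨γ • x.1, smul_mem_FP x.2 γ⟩
  one_smul x := Subtype.ext (one_smul _ _)
  mul_smul γ δ x := Subtype.ext (mul_smul _ _ _)

end FreePart

/-! ### transport of the rules -/

section Transport

variable {G : Type} [Group G] (e : Elts G) (F : Coprod (Multiplicative (ZMod 3)) G → Lab)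

/-- the pattern restricted to `G` -/
def resG (F : Coprod (Multiplicative (ZMod 3)) G → Lab) : G → Lab := fun g => F (Coprod.inr g)

theorem lift_S1 : e.lift.S1 = e.S1.map (Coprod.inr : G →* Coprod (Multiplicative (ZMod 3)) G) := by
  simp [Elts.S1, Elts.lift]

theorem err_lift : Err e.lift F ↔ Err e (resG F) := by
  unfold Err resG
  rw [lift_S1]
  simp only [List.mem_map, Elts.lift]
  constructor
  · rintro (⟨_, ⟨h, hh, rfl⟩, h1⟩ | h1 | h1)
    · exact Or.inl ⟨h, hh, by simpa using h1⟩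
    · exact Or.inr (Or.inl (by simpa using h1))
    · exact Or.inr (Or.inr (by simpa using h1))
  · rintro (⟨h, hh, h1⟩ | h1 | h1)
    · exact Or.inl ⟨_, ⟨h, hh, rfl⟩, by simpa using h1⟩
    · exact Or.inr (Or.inl (by simpa using h1))
    · exact Or.inr (Or.inr (by simpa using h1))

theorem rulesG_lift (h : RulesG e.lift F) : RulesG e (resG F) := by
  obtain ⟨h2, h3, h4, h5, h6, h7, h8, h9⟩ := h
  refine ⟨?_, ?_, ?_, ?_, ?_, ?_, ?_, ?_⟩
  · unfold L2 at h2 ⊢
    rw [err_lift] at h2
    simpa [resG, Elts.lift] using h2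
  · unfold L3 at h3 ⊢
    rw [err_lift] at h3
    simpa [resG, Elts.lift] using h3
  · unfold L4 at h4 ⊢
    simpa [resG, Elts.lift] using h4
  · unfold L5 at h5 ⊢
    simpa [resG, Elts.lift] using h5
  · unfold L6 at h6 ⊢
    simpa [resG, Elts.lift] using h6
  · unfold L7 at h7 ⊢
    simpa [resG, Elts.lift] using h7
  · unfold L8 at h8 ⊢
    simpa [resG, Elts.lift] using h8
  · unfold L9 at h9 ⊢
    simpa [resG, Elts.lift] using h9

end Transport

/-- SIM: if the LCL has a class `α` solution on every free continuous action then on `Y` there is a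
class `α` solution of the rules (L2)-(L9) for every prescribed continuous input. -/
def StmtSim : Prop :=
  ∀ (G : Type) [Group G] [Countable G] (e : Elts G) (Y : Type) [TopologicalSpace Y]
    (Idx : Type) [Countable Idx] (D : Idx → Type) [∀ i, Countable (D i)] [∀ i, Nonempty (D i)]
    [∀ i, TopologicalSpace (D i)] [∀ i, DiscreteTopology (D i)] (_ : Y ≃ₜ ∀ i, D i)
    [MulAction G Y], (∀ g : G, Continuous fun y : Y => g • y) → FreeAct G Y →
    ∀ α : Ordinal.{0}, theLCL e.lift ∈ BAIRE α (Coprod (Multiplicative (ZMod 3)) G) →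
      ∀ ι : Y → ZMod 3, Continuous ι →
        ∃ f : Y → Lab, BaireClass α f ∧ (∀ y, (f y).ι = ι y) ∧ ∀ y, RulesG e (pat f y)

theorem iter_L1 {Γ Z : Type} [Group Γ] [MulAction Γ Z] (e : Elts Γ) (f : Z → Lab)
    (h : ∀ z, Rules e (pat f z)) (n : ℕ) (z : Z) : (f (e.a ^ n • z)).ι = (f z).ι + n := by
  induction n with
  | zero => simp
  | succ n ih =>
    have h1 : (f (e.a • (e.a ^ n • z))).ι = (f ((1 : Γ) • (e.a ^ n • z))).ι + 1 :=
      (h (e.a ^ n • z)).1
    rw [pow_succ', mul_smul, h1, one_smul, ih]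
    push_cast
    ring

theorem sim (hML : ML.StmtML) (hCL : StmtCL) (hPre : StmtPreimage) (hBor : StmtSigmaBorel)
    (hWin : StmtWindow) : StmtSim := by
  classical
  intro G _ _ e Y _ Idx _ D _ _ _ _ hY _ hcont hfree α hα ι hι
  obtain ⟨X, _, _, _, hzd, hcX, hfA, hfG, hML'⟩ := hML Idx D Y hY G hcont hfree
  letI : MeasurableSpace X := borel X
  haveI : BorelSpace X := ⟨rfl⟩
  haveI : Countable (Coprod (Multiplicative (ZMod 3)) G) := countable_coprod _ _
  have hmX : ∀ γ : Coprod (Multiplicative (ZMod 3)) G, Measurable fun x : X => γ • x :=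
    fun γ => (hcX γ).measurable
  obtain ⟨C, hC, hC1, hC2⟩ := hCL (Multiplicative (ZMod 3)) G X hmX hfA hfG
  -- the free part
  let F : Set X := FP (Coprod (Multiplicative (ZMod 3)) G) X
  letI : MulAction (Coprod (Multiplicative (ZMod 3)) G) F := actFP _ X
  have smul_def : ∀ (γ : Coprod (Multiplicative (ZMod 3)) G) (x : F), ((γ • x : F) : X) = γ • (x : X) :=
    fun _ _ => rfl
  haveI : PolishSpace F := polish_FP hcX
  have hF : MeasurableSet F := by
    have h1 : F = (Pool.Agent.Lib_helper77.CSet.NF (Coprod (Multiplicative (ZMod 3)) G) X)ᶜ := by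
      ext x
      rw [Set.mem_compl_iff, ← not_iff_not, not_not]
      exact not_mem_FP
    rw [h1]
    exact (Pool.Agent.Lib_helper77.CSet.measurableSet_NF hmX).compl
  obtain ⟨f0, hf0, hlab⟩ := hα F (zeroDim_subtype hzd F)
    (fun γ => ((hcX γ).comp continuous_subtype_val).subtype_mk _)
    (fun γ x h => x.2 γ (congrArg Subtype.val h))
  have hrules : ∀ z : F, Rules e.lift (pat f0 z) := (hWin e.lift f0).1 hlab
  -- the payoff sets
  let W : ZMod 3 → Set X := fun i => (Subtype.val '' {z : F | (f0 z).ι = i}) ∪ (C ∩ Fᶜ)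
  have hW : ∀ i, @MeasurableSet _ (borel _) (W i) := by
    intro i
    refine MeasurableSet.union ?_ (hC.inter hF.compl)
    have h1 : MeasurableSet {z : F | (f0 z).ι = i} := hBor (1 + α) _ (hf0 {l | l.ι = i})
    exact (MeasurableEmbedding.subtype_coe hF).measurableSet_image.2 h1
  have hmeet : ∀ (i : ZMod 3) (x : X), ∃ a : ML.A3,
      (Coprod.inl a : Coprod ML.A3 G) • x ∈ W i := by
    intro i x
    by_cases hx : x ∈ F
    · let k : ZMod 3 := i - (f0 ⟨x, hx⟩).ι
      refine ⟨Multiplicative.ofAdd (1 : ZMod 3) ^ k.val, Or.inl ?_⟩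
      refine ⟨e.lift.a ^ k.val • (⟨x, hx⟩ : F), ?_, ?_⟩
      · have := iter_L1 e.lift f0 hrules k.val ⟨x, hx⟩
        simp only [Set.mem_setOf_eq]
        rw [this, ZMod.natCast_zmod_val]
        simp [k]
      · rw [smul_def, map_pow]
        rfl
    · obtain ⟨a, ha⟩ := hC1 x (not_mem_FP.1 hx)
      refine ⟨a, Or.inr ⟨ha, ?_⟩⟩
      intro h
      apply hx
      have := smul_mem_FP h (Coprod.inl a : Coprod (Multiplicative (ZMod 3)) G)⁻¹
      rwa [inv_smul_smul] at this
  obtain ⟨φ, hφ, heq, hmem⟩ := hML' W hW hmeet ι hι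
  have hφF : ∀ y, φ y ∈ F := by
    intro y
    by_contra hy
    obtain ⟨g, hg⟩ := hC2 (φ y) (not_mem_FP.1 hy)
    have h1 := hmem (g • y)
    rw [heq] at h1
    rcases h1 with ⟨z, _, hz⟩ | h1
    · apply hy
      have hzF : (Coprod.inr g : Coprod ML.A3 G) • φ y ∈ F := by rw [← hz]; exact z.2
      have := smul_mem_FP hzF (Coprod.inr g : Coprod (Multiplicative (ZMod 3)) G)⁻¹
      rwa [inv_smul_smul] at this
    · exact hg h1.1
  let ψ : Y → F := fun y => ⟨φ y, hφF y⟩
  have hψ : Continuous ψ := hφ.subtype_mk _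
  refine ⟨fun y => f0 (ψ y), ?_, ?_, ?_⟩
  · intro U
    exact hPre ψ hψ (1 + α) _ (hf0 U)
  · intro y
    rcases hmem y with ⟨z, hz, hzy⟩ | h
    · have h1 : z = ψ y := Subtype.ext hzy
      show (f0 (ψ y)).ι = ι y
      rw [← h1]
      exact hz
    · exact absurd (hφF y) h.2
  · intro y
    let F1 : Coprod (Multiplicative (ZMod 3)) G → Lab := pat f0 (ψ y)
    have h1 := rulesG_lift e F1 (hrules (ψ y)).2
    have h2 : resG F1 = pat (fun y => f0 (ψ y)) y := by
      funext g
      simp only [resG, pat, F1]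
      congr 1
      refine Subtype.ext ?_
      rw [smul_def]
      exact (heq g y).symm
    rw [h2] at h1
    exact h1

end Pool.Agent.LCL89
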